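import Mathlib
import Pool.Agent.H.MP_8dd142_lc.C

set_option autoImplicit false

namespace Pool.Agent.Results.MP_8dd142_lc.No

open Pool.Agent.H.MP_0d317a_lc Pool.Agent.H.MP_8dd142_lc

theorem result (hd : H.MP_2e4b78_lc.Dia) : ∃ U : Ultrafilter ℕ, (∀ n, {n} ∉ U) ∧ Tk (Sup U) Fc ∧
    ¬ Tk Fc (Sup U) ∧ ¬ FG U :=
  H.MP_8dd142_lc.main hd

end Pool.Agent.Results.MP_8dd142_lc.No
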